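import Pool.Agent.W223.RB.Stms
import Pool.Agent.W347.RA.CNT

/-! Project RB, part BCEL: few cells. -/

set_option autoImplicit false

namespace Pool.Agent.W347.RBBCEL

open Finset Pool.Agent.W223.RB

theorem log_part (S : Finset ℕ) (n : ℕ) :
    ∑ q ∈ S, (n.factorization q : ℝ) * Real.log q ≤ Real.log n := by
  have hnn : ∀ q : ℕ, 0 ≤ (n.factorization q : ℝ) * Real.log q := fun q =>
    mul_nonneg (Nat.cast_nonneg _) (Real.log_natCast_nonneg _)
  have h1 : ∑ q ∈ S, (n.factorization q : ℝ) * Real.log q ≤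
      ∑ q ∈ S ∪ n.factorization.support, (n.factorization q : ℝ) * Real.log q :=
    Finset.sum_le_sum_of_subset_of_nonneg Finset.subset_union_left (fun q _ _ => hnn q)
  have h2 : ∑ q ∈ n.factorization.support, (n.factorization q : ℝ) * Real.log q =
      ∑ q ∈ S ∪ n.factorization.support, (n.factorization q : ℝ) * Real.log q := by
    apply Finset.sum_subset Finset.subset_union_right
    intro q _ hq
    rw [Finsupp.notMem_support_iff] at hq
    rw [hq]
    simp
  rw [← h2] at h1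
  refine h1.trans (le_of_eq ?_)
  by_cases hn : n = 0
  · subst hn; simp
  · rw [Real.log_nat_eq_sum_factorization]
    rfl

/-- the constant -/
noncomputable def A {d : ℕ} (α β : Fin d → ℤ) : ℝ := 1 + ∑ i, (|(α i : ℝ)| + |(β i : ℝ)|)

theorem one_le_A {d : ℕ} (α β : Fin d → ℤ) : 1 ≤ A α β := by
  unfold A
  have : 0 ≤ ∑ i, (|(α i : ℝ)| + |(β i : ℝ)|) := Finset.sum_nonneg fun i _ => by positivity
  linarith

theorem V_le {d : ℕ} (α β : Fin d → ℤ) (x y : ℤ) (i : Fin d) :
    |(V α β i x y : ℝ)| ≤ A α β * max |(x : ℝ)| |(y : ℝ)| := by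
  unfold V
  push_cast
  have h1 : |(α i : ℝ)| + |(β i : ℝ)| ≤ A α β := by
    unfold A
    have := Finset.single_le_sum (f := fun i => |(α i : ℝ)| + |(β i : ℝ)|) (s := Finset.univ)
      (fun i _ => by positivity) (Finset.mem_univ i)
    linarith
  have h2 : 0 ≤ max |(x : ℝ)| |(y : ℝ)| := (abs_nonneg _).trans (le_max_left _ _)
  calc |(α i : ℝ) * x + β i * y| ≤ |(α i : ℝ) * x| + |(β i : ℝ) * y| := abs_add_le _ _
    _ = |(α i : ℝ)| * |(x : ℝ)| + |(β i : ℝ)| * |(y : ℝ)| := by rw [abs_mul, abs_mul]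
    _ ≤ |(α i : ℝ)| * max |(x : ℝ)| |(y : ℝ)| + |(β i : ℝ)| * max |(x : ℝ)| |(y : ℝ)| := by
        gcongr
        · exact le_max_left _ _
        · exact le_max_right _ _
    _ = (|(α i : ℝ)| + |(β i : ℝ)|) * max |(x : ℝ)| |(y : ℝ)| := by ring
    _ ≤ _ := mul_le_mul_of_nonneg_right h1 h2

theorem V_ne {d : ℕ} (α β : Fin d → ℤ) (x y : ℤ) (h : F α β x y ≠ 0) (i : Fin d) :
    V α β i x y ≠ 0 := by
  intro h0
  apply h
  unfold F
  exact Finset.prod_eq_zero (Finset.mem_univ i) h0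

theorem logV {d : ℕ} (α β : Fin d → ℤ) (x y : ℤ) (h : F α β x y ≠ 0) (i : Fin d)
    (S : Finset ℕ) :
    ∑ q ∈ S, (vq α β i x y q : ℝ) * Real.log q ≤ Real.log (A α β) + lH x y := by
  have h1 : (1 : ℝ) ≤ |(V α β i x y : ℝ)| := by
    have := Int.one_le_abs (V_ne α β x y h i)
    exact_mod_cast this
  have hA := one_le_A α β
  have h2 := V_le α β x y i
  have hH : 0 < max |(x : ℝ)| |(y : ℝ)| := by
    by_contra hc
    rw [not_lt] at hc
    have : A α β * max |(x : ℝ)| |(y : ℝ)| ≤ 0 := mul_nonpos_of_nonneg_of_nonpos (by linarith) hc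
    linarith
  have h3 := log_part S (V α β i x y).natAbs
  have h4 : (((V α β i x y).natAbs : ℕ) : ℝ) = |(V α β i x y : ℝ)| := by
    rw [Nat.cast_natAbs]; push_cast; rfl
  rw [h4] at h3
  unfold vq
  refine h3.trans ?_
  unfold lH
  rw [← Real.log_mul (by linarith) hH.ne']
  exact Real.log_le_log (by linarith) h2

theorem tBCEL : Pool.Agent.W223.RB.StmtBCEL := by
  classical
  intro d α β hgood
  have hd : 4 ≤ d := hgood.1
  have hA := one_le_A α β
  have hlA : 0 ≤ Real.log (A α β) := Real.log_nonneg hA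
  obtain ⟨K1, hK1⟩ := exists_nat_ge (32 * (d : ℝ) ^ 2 * (Real.log (A α β) + 33 / 32))
  refine ⟨K1 + d, ?_⟩
  intro S ℓ hS hℓ
  have hdpos : (0 : ℝ) < d := by
    have : 0 < d := by omega
    exact_mod_cast this
  set u : ℝ := ℓ / (32 * d * (S.card + 1)) with hu
  have hupos : 0 < u := by rw [hu]; positivity
  set N : ℕ := K1 * (S.card + 1) with hN
  -- the vector
  let nv : ℤ × ℤ → S × Fin d → ℕ := fun z w => ⌊(vq α β w.2 z.1 z.2 w.1 : ℝ) * Real.log (w.1 : ℕ) / u⌋₊
  have hsum : ∀ x y : ℤ, Pt α β x y → Scale ℓ x y → ∑ w, nv (x, y) w ≤ N := by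
    intro x y hp hs
    have h1 : ((∑ w, nv (x, y) w : ℕ) : ℝ) ≤ N := by
      push_cast
      calc ∑ w, (nv (x, y) w : ℝ) ≤ ∑ w : S × Fin d, (vq α β w.2 x y w.1 : ℝ) * Real.log (w.1 : ℕ) / u := by
            apply Finset.sum_le_sum
            intro w _
            exact Nat.floor_le (div_nonneg (mul_nonneg (Nat.cast_nonneg _)
              (Real.log_natCast_nonneg _)) hupos.le)
        _ = (∑ i : Fin d, ∑ q ∈ S, (vq α β i x y q : ℝ) * Real.log q) / u := by
            rw [Finset.sum_div, Fintype.sum_prod_type_right]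
            refine Finset.sum_congr rfl fun i _ => ?_
            rw [Finset.sum_div]
            exact Finset.sum_coe_sort S (fun q => (vq α β i x y q : ℝ) * Real.log q / u)
        _ ≤ (∑ i : Fin d, (Real.log (A α β) + 33 / 32 * ℓ)) / u := by
            apply div_le_div_of_nonneg_right _ hupos.le
            apply Finset.sum_le_sum
            intro i _
            exact (logV α β x y hp.2 i S).trans (by linarith [hs.2])
        _ = d * (Real.log (A α β) + 33 / 32 * ℓ) / u := by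
            rw [Finset.sum_const, Finset.card_univ, Fintype.card_fin, nsmul_eq_mul]
        _ ≤ d * ((Real.log (A α β) + 33 / 32) * ℓ) / u := by
            apply div_le_div_of_nonneg_right _ hupos.le
            apply mul_le_mul_of_nonneg_left _ hdpos.le
            nlinarith
        _ = 32 * (d : ℝ) ^ 2 * (Real.log (A α β) + 33 / 32) * (S.card + 1) := by
            rw [hu]
            have : ℓ ≠ 0 := by positivity
            field_simp
        _ ≤ K1 * (S.card + 1) := mul_le_mul_of_nonneg_right hK1 (by positivity)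
        _ = N := by rw [hN]; push_cast; ring
    exact_mod_cast h1
  let T := {f : S × Fin d → Fin (N + 1) // ∑ w, (f w : ℕ) ≤ N} × Fin d
  have hcard : Fintype.card T ≤ Fintype.card (Fin (2 ^ ((K1 + d) * (S.card + 1)))) := by
    have h1 := Pool.Agent.W347.RACNT.gen (S × Fin d) N
    rw [Fintype.card_prod, Fintype.card_coe, Fintype.card_fin] at h1
    rw [Fintype.card_prod, Fintype.card_fin, Fintype.card_fin, Fintype.card_subtype]
    calc _ ≤ 2 ^ (N + S.card * d) * 2 ^ d :=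
          Nat.mul_le_mul h1 (Nat.lt_two_pow_self).le
      _ = 2 ^ ((K1 + d) * (S.card + 1)) := by
          rw [← pow_add, hN]
          congr 1
          ring
  obtain ⟨emb⟩ := Function.Embedding.nonempty_of_card_le hcard
  haveI : Nonempty (Fin d) := ⟨⟨0, by omega⟩⟩
  have hmin : ∀ x y : ℤ, ∃ i₀ : Fin d, ∀ i, |V α β i₀ x y| ≤ |V α β i x y| := fun x y =>
    Finite.exists_min (fun i => |V α β i x y|)
  choose i₀ hi₀ using hmin
  have hle : ∀ z : ℤ × ℤ, (∑ w, nv z w ≤ N) → ∀ w, nv z w < N + 1 := fun z h w =>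
    Nat.lt_succ_of_le ((Finset.single_le_sum (fun _ _ => Nat.zero_le _) (Finset.mem_univ w)).trans h)
  let cell : (z : ℤ × ℤ) → (∑ w, nv z w ≤ N) → T := fun z h =>
    (⟨fun w => ⟨nv z w, hle z h w⟩, h⟩, i₀ z.1 z.2)
  let Φ : ℤ × ℤ → Fin (2 ^ ((K1 + d) * (S.card + 1))) := fun z =>
    if h : ∑ w, nv z w ≤ N then emb (cell z h) else ⟨0, by positivity⟩
  refine ⟨Φ, ?_⟩
  intro x₁ y₁ x₂ y₂ hp1 hp2 hs1 hs2 hΦ
  have g1 := hsum x₁ y₁ hp1 hs1
  have g2 := hsum x₂ y₂ hp2 hs2
  have e : emb (cell (x₁, y₁) g1) = emb (cell (x₂, y₂) g2) := by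
    have a1 : Φ (x₁, y₁) = emb (cell (x₁, y₁) g1) := dif_pos g1
    have a2 : Φ (x₂, y₂) = emb (cell (x₂, y₂) g2) := dif_pos g2
    rw [← a1, ← a2, hΦ]
  have e2 := emb.injective e
  have e3 : ∀ w, nv (x₁, y₁) w = nv (x₂, y₂) w := by
    intro w
    have := congrArg (fun t : T => ((t.1.1 w : Fin (N + 1)) : ℕ)) e2
    exact this
  have e4 : i₀ x₁ y₁ = i₀ x₂ y₂ := congrArg (fun t : T => t.2) e2
  refine ⟨?_, i₀ x₁ y₁, hi₀ x₁ y₁, ?_⟩
  · intro i q hq
    have h5 := e3 (⟨q, hq⟩, i)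
    simp only [nv] at h5
    have p1 : 0 ≤ (vq α β i x₁ y₁ q : ℝ) * Real.log q / u :=
      div_nonneg (mul_nonneg (Nat.cast_nonneg _) (Real.log_natCast_nonneg _)) hupos.le
    have p2 : 0 ≤ (vq α β i x₂ y₂ q : ℝ) * Real.log q / u :=
      div_nonneg (mul_nonneg (Nat.cast_nonneg _) (Real.log_natCast_nonneg _)) hupos.le
    have f1 := Nat.floor_le p1
    have f2 := Nat.lt_floor_add_one ((vq α β i x₁ y₁ q : ℝ) * Real.log q / u)
    have f3 := Nat.floor_le p2
    have f4 := Nat.lt_floor_add_one ((vq α β i x₂ y₂ q : ℝ) * Real.log q / u)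
    rw [h5] at f1 f2
    have h6 : |(vq α β i x₁ y₁ q : ℝ) * Real.log q / u - (vq α β i x₂ y₂ q : ℝ) * Real.log q / u|
        ≤ 1 := by
      rw [abs_le]
      constructor <;> linarith
    rw [← sub_div, abs_div, abs_of_pos hupos, div_le_one hupos, ← sub_mul] at h6
    exact h6
  · rw [e4]
    exact hi₀ x₂ y₂

end Pool.Agent.W347.RBBCEL
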